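import Pool.Agent.helper53.LV.FCQ

/-!
# Row lv:L3A (MP_a2a22c_al): a transvection which does not fix the vector
-/

set_option autoImplicit false

namespace Pool.Agent.LV

open Matrix Pool.Agent.H48SL Pool.Agent.UG

theorem L3A_vv {n : ℕ} (x y w : Fin n → ℚ) : vecMulVec x y *ᵥ w = (y ⬝ᵥ w) • x := by
  ext i
  simp only [mulVec, dotProduct, vecMulVec_apply, Pi.smul_apply, smul_eq_mul, Finset.sum_mul]
  exact Finset.sum_congr rfl fun _ _ => by ring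

theorem L3A_act {n : ℕ} (x v ψ β w : Fin n → ℚ) :
    ((1 : MQ n) + vecMulVec x ψ + vecMulVec v β) *ᵥ w = w + (ψ ⬝ᵥ w) • x + (β ⬝ᵥ w) • v := by
  rw [add_mulVec, add_mulVec, one_mulVec, L3A_vv, L3A_vv]

theorem L3A_act1 {n : ℕ} (x ψ w : Fin n → ℚ) :
    ((1 : MQ n) + vecMulVec x ψ) *ᵥ w = w + (ψ ⬝ᵥ w) • x := by
  rw [add_mulVec, one_mulVec, L3A_vv]

/-- the cross product -/
def L3A_cr (v w : Fin 3 → ℤ) : Fin 3 → ℤ :=
  ![v 1 * w 2 - v 2 * w 1, v 2 * w 0 - v 0 * w 2, v 0 * w 1 - v 1 * w 0]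

theorem L3A_cr_l (v w : Fin 3 → ℤ) : L3A_cr v w ⬝ᵥ v = 0 := by
  simp only [L3A_cr, dotProduct, Fin.sum_univ_three, Matrix.cons_val_zero, Matrix.cons_val_one, Matrix.cons_val]
  ring

theorem L3A_cr_r (v w : Fin 3 → ℤ) : L3A_cr v w ⬝ᵥ w = 0 := by
  simp only [L3A_cr, dotProduct, Fin.sum_univ_three, Matrix.cons_val_zero, Matrix.cons_val_one, Matrix.cons_val]
  ring

/-- `(v × x) × f = (v f) x - (x f) v` -/
theorem L3A_triple (v x f : Fin 3 → ℤ) :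
    L3A_cr (L3A_cr v x) f = (f ⬝ᵥ v) • x - (f ⬝ᵥ x) • v := by
  funext i
  fin_cases i <;>
  · simp only [L3A_cr, dotProduct, Fin.sum_univ_three, Matrix.cons_val_zero, Matrix.cons_val_one, Matrix.cons_val,
      Pi.sub_apply, Pi.smul_apply, smul_eq_mul, Fin.zero_eta, Fin.mk_one, Fin.reduceFinMk]
    ring

theorem L3A_ne {v x f : Fin 3 → ℤ} (hx : x ≠ 0) (h0 : f ⬝ᵥ x = 0) (h1 : f ⬝ᵥ v ≠ 0) : L3A_cr v x ≠ 0 := by
  intro h
  have h2 := L3A_triple v x f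
  rw [h, h0, zero_smul, sub_zero] at h2
  have h3 : L3A_cr 0 f = 0 := by
    funext i
    fin_cases i <;> simp [L3A_cr]
  rw [h3] at h2
  exact (smul_ne_zero h1 hx) h2.symm

theorem L3A_self {w : Fin 3 → ℤ} (h : w ≠ 0) : 0 < w ⬝ᵥ w := by
  have h1 : 0 ≤ w ⬝ᵥ w := by
    simp only [dotProduct, Fin.sum_univ_three]
    nlinarith [mul_self_nonneg (w 0), mul_self_nonneg (w 1), mul_self_nonneg (w 2)]
  rcases h1.lt_or_eq with h2 | h2
  · exact h2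
  · exact absurd (dotProduct_self_eq_zero.1 h2.symm) h

/-- a rational row which kills `v` and `x` is a multiple of `v × x` -/
theorem L3A_prop (v x : Fin 3 → ℤ) (hψ : L3A_cr v x ≠ 0) (β : Fin 3 → ℚ) (h1 : β ⬝ᵥ castV v = 0)
    (h2 : β ⬝ᵥ castV x = 0) : ∃ c : ℚ, β = c • castV (L3A_cr v x) := by
  obtain ⟨r, hr⟩ := Function.ne_iff.1 hψ
  have hr' : castV (L3A_cr v x) r ≠ 0 := by
    show ((L3A_cr v x r : ℤ) : ℚ) ≠ 0
    exact_mod_cast hr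
  have key : ∀ p s : Fin 3, β p * castV (L3A_cr v x) s = β s * castV (L3A_cr v x) p := by
    simp only [dotProduct, Fin.sum_univ_three, castV] at h1 h2
    intro p s
    fin_cases p <;> fin_cases s <;>
      simp only [castV, L3A_cr, Matrix.cons_val_zero, Matrix.cons_val_one, Matrix.cons_val, Fin.zero_eta, Fin.mk_one,
        Fin.reduceFinMk] <;> push_cast
    · linear_combination (-(x 2 : ℚ)) * h1 + (v 2 : ℚ) * h2
    · linear_combination (x 1 : ℚ) * h1 - (v 1 : ℚ) * h2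
    · linear_combination (x 2 : ℚ) * h1 - (v 2 : ℚ) * h2
    · linear_combination (-(x 0 : ℚ)) * h1 + (v 0 : ℚ) * h2
    · linear_combination (-(x 1 : ℚ)) * h1 + (v 1 : ℚ) * h2
    · linear_combination (x 0 : ℚ) * h1 - (v 0 : ℚ) * h2
  refine ⟨β r / castV (L3A_cr v x) r, ?_⟩
  funext p
  rw [Pi.smul_apply, smul_eq_mul, div_mul_eq_mul_div, eq_div_iff hr']
  exact key p r

theorem L3A_zpow_fix {n : ℕ} {u : SLZ n} {v : Fin n → ℤ} (h : (u : Matrix (Fin n) (Fin n) ℤ) *ᵥ v = v) (t : ℤ) :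
    ((u ^ t : SLZ n) : Matrix (Fin n) (Fin n) ℤ) *ᵥ v = v := by
  have h1 : u ∈ Subgroup.zpowers u := Subgroup.mem_zpowers u
  let S : Subgroup (SLZ n) :=
    { carrier := {g | (g : Matrix (Fin n) (Fin n) ℤ) *ᵥ v = v}
      one_mem' := mv_one v
      mul_mem' := by
        intro a b ha hb
        show ((a * b : SLZ n) : Matrix (Fin n) (Fin n) ℤ) *ᵥ v = v
        rw [mv_mul, hb, ha]
      inv_mem' := by
        intro a ha
        show ((a⁻¹ : SLZ n) : Matrix (Fin n) (Fin n) ℤ) *ᵥ v = v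
        have h2 := mv_inv_left a v
        rw [ha] at h2
        exact h2 }
  exact S.zpow_mem (x := u) h t

theorem L3A_pow_add {n : ℕ} {u : SLZ n} {b x : Fin n → ℤ} (hb : (u : Matrix (Fin n) (Fin n) ℤ) *ᵥ b = b)
    (hx : (u : Matrix (Fin n) (Fin n) ℤ) *ᵥ x = x + b) (t : ℕ) :
    ((u ^ t : SLZ n) : Matrix (Fin n) (Fin n) ℤ) *ᵥ x = x + (t : ℤ) • b := by
  induction t with
  | zero => rw [pow_zero, mv_one]; simp
  | succ t ih =>
    rw [pow_succ', mv_mul, ih, mulVec_add, mulVec_smul, hb, hx]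
    push_cast
    rw [add_smul, one_smul]
    abel

theorem L3A_zpow_add {n : ℕ} {u : SLZ n} {b x : Fin n → ℤ} (hb : (u : Matrix (Fin n) (Fin n) ℤ) *ᵥ b = b)
    (hx : (u : Matrix (Fin n) (Fin n) ℤ) *ᵥ x = x + b) (t : ℤ) :
    ((u ^ t : SLZ n) : Matrix (Fin n) (Fin n) ℤ) *ᵥ x = x + t • b := by
  obtain ⟨m, rfl | rfl⟩ := Int.eq_nat_or_neg t
  · rw [zpow_natCast]
    exact L3A_pow_add hb hx m
  · have h1 := L3A_pow_add hb hx m
    have h2 : ((u ^ (-(m : ℤ)) : SLZ n) : Matrix (Fin n) (Fin n) ℤ) *ᵥ b = b := L3A_zpow_fix hb _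
    have h3 : ((u ^ (-(m : ℤ)) : SLZ n) : Matrix (Fin n) (Fin n) ℤ) *ᵥ
        (((u ^ m : SLZ n) : Matrix (Fin n) (Fin n) ℤ) *ᵥ x) = x := by
      rw [← mv_mul]
      have : u ^ (-(m : ℤ)) * u ^ m = 1 := by
        rw [_root_.zpow_neg, zpow_natCast, inv_mul_cancel]
      rw [this, mv_one]
    rw [h1, mulVec_add, mulVec_smul, h2] at h3
    rw [neg_smul]
    exact eq_add_neg_of_add_eq h3

/-- powers of an element which fixes `v`, maps `w` to `w` modulo `v` and `x` to `x + a w` modulo `v` -/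
theorem L3A_pow_mod {n : ℕ} {h : SLZ n} {v w x : Fin n → ℚ} {a r₁ r₂ : ℚ} (hv : qg h *ᵥ v = v)
    (hw : qg h *ᵥ w = w + r₁ • v) (hx : qg h *ᵥ x = x + a • w + r₂ • v) (q : ℕ) :
    ∃ r : ℚ, qg (h ^ q) *ᵥ x = x + ((q : ℚ) * a) • w + r • v := by
  induction q with
  | zero =>
    refine ⟨0, ?_⟩
    rw [pow_zero, qg_one, one_mulVec]
    simp
  | succ q ih =>
    obtain ⟨r, hr⟩ := ih
    refine ⟨r₂ + (q * a) * r₁ + r, ?_⟩
    rw [pow_succ', qg_mul, ← mulVec_mulVec, hr, mulVec_add, mulVec_add, mulVec_smul, mulVec_smul, hv, hw, hx]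
    funext i
    simp only [Pi.add_apply, Pi.smul_apply, smul_eq_mul]
    push_cast
    ring

theorem L3A_a (hFCQ : FCQ_stmt) (H : Subgroup (SLZ 3)) (hD : ZDense H) (v e φ : Fin 3 → ℤ)
    (he0 : e ≠ 0) (hdot : φ ⬝ᵥ e = 0) (hφv : φ ⬝ᵥ v ≠ 0) (z₀ : SLZ 3) (hz₀ : z₀ ∈ H) (hz : z₀ = tv e φ)
    (u : SLZ 3) (hu : u ∈ H) (j : ℕ) (hj : 1 ≤ j) (β : Fin 3 → ℚ) (hβ : β ⬝ᵥ castV v = 0)
    (hqu : qg u = 1 + vecMulVec ((j : ℚ) • castV e) (castV (L3A_cr v e)) + vecMulVec (castV v) β)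
    (hB : β ⬝ᵥ castV e = 0) : H.FiniteIndex := by
  have hψ : L3A_cr v e ≠ 0 := L3A_ne he0 hdot hφv
  obtain ⟨c, hc⟩ := L3A_prop v e hψ β hβ hB
  have hj' : (j : ℚ) ≠ 0 := by exact_mod_cast (by omega : j ≠ 0)
  have hce : castV e ≠ 0 := fun h => he0 (castV_inj (h.trans castV_zero.symm))
  have hcψ : castV (L3A_cr v e) ≠ 0 := fun h => hψ (castV_inj (h.trans castV_zero.symm))
  have hdotQ : castV φ ⬝ᵥ castV e = 0 := by rw [castV_dot, hdot]; rfl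
  have hφvQ : castV φ ⬝ᵥ castV v ≠ 0 := by rw [castV_dot]; exact_mod_cast hφv
  have hψe : castV (L3A_cr v e) ⬝ᵥ castV e = 0 := by rw [castV_dot, L3A_cr_r]; rfl
  have hψv : castV (L3A_cr v e) ⬝ᵥ castV v = 0 := by rw [castV_dot, L3A_cr_l]; rfl
  have hqz : ∀ w : Fin 3 → ℚ, qg z₀ *ᵥ w = w + (castV φ ⬝ᵥ w) • castV e := by
    intro w
    rw [hz, qg_tv hdot, L3A_act1]
  have hqu' : qg u = 1 + vecMulVec ((j : ℚ) • castV e + c • castV v) (castV (L3A_cr v e)) := by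
    rw [hqu, hc]
    ext p q
    simp only [Matrix.add_apply, vecMulVec_apply, Pi.add_apply, Pi.smul_apply, smul_eq_mul]
    ring
  refine hFCQ 3 (le_refl 3) H hD u hu z₀ hz₀ ((j : ℚ) • castV e + c • castV v) (castV (L3A_cr v e)) ?_ hcψ ?_ hqu' ?_
    (Or.inr ?_)
  · intro h0
    have h1 := congrArg (fun y => castV φ ⬝ᵥ y) h0
    simp only [dotProduct_add, dotProduct_smul, dotProduct_zero, hdotQ, mul_zero, zero_add, smul_eq_mul] at h1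
    rcases mul_eq_zero.1 h1 with h2 | h2
    · rw [h2, zero_smul, add_zero] at h0
      exact (smul_ne_zero hj' hce) h0
    · exact hφvQ h2
  · rw [dotProduct_add, dotProduct_smul, dotProduct_smul, hψe, hψv]
    simp
  · rw [hqz, dotProduct_add, dotProduct_add, dotProduct_smul, dotProduct_smul, dotProduct_smul, hψe, hψv]
    simp
  · intro k hk m hkm
    have h1 : ((z₀ ^ k : SLZ 3) : Matrix (Fin 3) (Fin 3) ℤ) *ᵥ v = v + (k : ℤ) • ((φ ⬝ᵥ v) • e) := by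
      have hze : (z₀ : Matrix (Fin 3) (Fin 3) ℤ) *ᵥ ((φ ⬝ᵥ v) • e) = (φ ⬝ᵥ v) • e := by
        rw [hz, mulVec_smul, tv_mulVec hdot, hdot, zero_smul, add_zero]
      exact L3A_pow_add hze (by rw [hz, tv_mulVec hdot]) k
    have huv : (u : Matrix (Fin 3) (Fin 3) ℤ) *ᵥ v = v := by
      apply castV_inj
      rw [← qg_mulVec_castV, hqu, L3A_act, hβ, hψv]
      simp
    have h2 := L3A_zpow_fix huv m
    rw [← hkm, h1] at h2
    have h3 : (k : ℤ) • ((φ ⬝ᵥ v) • e) = 0 := by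
      have := h2
      rwa [add_eq_left] at this
    exact smul_ne_zero (by exact_mod_cast (by omega : k ≠ 0)) (smul_ne_zero hφv he0) h3

theorem L3A_b (hFCQ : FCQ_stmt) (H : Subgroup (SLZ 3)) (hD : ZDense H) (v e φ : Fin 3 → ℤ) (hP : PV H v)
    (he0 : e ≠ 0) (hφ0 : φ ≠ 0) (hdot : φ ⬝ᵥ e = 0) (hφv : φ ⬝ᵥ v ≠ 0) (z₀ : SLZ 3) (hz₀ : z₀ ∈ H) (hz : z₀ = tv e φ)
    (u : SLZ 3) (hu : u ∈ H) (j : ℕ) (β : Fin 3 → ℚ) (hβ : β ⬝ᵥ castV v = 0)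
    (hqu : qg u = 1 + vecMulVec ((j : ℚ) • castV e) (castV (L3A_cr v e)) + vecMulVec (castV v) β)
    (hB : β ⬝ᵥ castV e ≠ 0) : H.FiniteIndex := by
  have hψ : L3A_cr v e ≠ 0 := L3A_ne he0 hdot hφv
  have hce : castV e ≠ 0 := fun h => he0 (castV_inj (h.trans castV_zero.symm))
  have hcφ : castV φ ≠ 0 := fun h => hφ0 (castV_inj (h.trans castV_zero.symm))
  have hdotQ : castV φ ⬝ᵥ castV e = 0 := by rw [castV_dot, hdot]; rfl
  have hφvQ : castV φ ⬝ᵥ castV v ≠ 0 := by rw [castV_dot]; exact_mod_cast hφv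
  have hψe : castV (L3A_cr v e) ⬝ᵥ castV e = 0 := by rw [castV_dot, L3A_cr_r]; rfl
  have hψv : castV (L3A_cr v e) ⬝ᵥ castV v = 0 := by rw [castV_dot, L3A_cr_l]; rfl
  have huv : (u : Matrix (Fin 3) (Fin 3) ℤ) *ᵥ v = v := by
    apply castV_inj
    rw [← qg_mulVec_castV, hqu, L3A_act, hβ, hψv]
    simp
  obtain ⟨b, hb⟩ : ∃ b, b = (u : Matrix (Fin 3) (Fin 3) ℤ) *ᵥ e - e := ⟨_, rfl⟩
  have hue : (u : Matrix (Fin 3) (Fin 3) ℤ) *ᵥ e = e + b := by rw [hb]; abel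
  have hcb : castV b = (β ⬝ᵥ castV e) • castV v := by
    have h1 : castV ((u : Matrix (Fin 3) (Fin 3) ℤ) *ᵥ e) = castV e + castV b := by
      rw [hue]; funext i; simp [castV]
    rw [← qg_mulVec_castV, hqu, L3A_act, hψe, zero_smul, add_zero] at h1
    exact (add_left_cancel h1).symm
  have fixb : ∀ g : SLZ 3, (g : Matrix (Fin 3) (Fin 3) ℤ) *ᵥ v = v → (g : Matrix (Fin 3) (Fin 3) ℤ) *ᵥ b = b := by
    intro g hg
    apply castV_inj
    rw [← qg_mulVec_castV, hcb, mulVec_smul, qg_mulVec_castV, hg]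
  have hub := fixb u huv
  have hM : φ ⬝ᵥ b ≠ 0 := by
    have h1 : ((φ ⬝ᵥ b : ℤ) : ℚ) ≠ 0 := by
      rw [← castV_dot, hcb, dotProduct_smul, smul_eq_mul]
      exact mul_ne_zero hB hφvQ
    exact_mod_cast h1
  -- the element h
  obtain ⟨w, hw⟩ : ∃ w, w = L3A_cr v e := ⟨_, rfl⟩
  have hw0 : w ≠ 0 := by rw [hw]; exact hψ
  have hwe : w ⬝ᵥ e = 0 := by rw [hw]; exact L3A_cr_r v e
  have hwv : w ⬝ᵥ v = 0 := by rw [hw]; exact L3A_cr_l v e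
  have hww := L3A_self hw0
  have hψ₁e : L3A_cr v w ⬝ᵥ e = - (w ⬝ᵥ w) := by
    rw [hw]
    simp only [L3A_cr, dotProduct, Fin.sum_univ_three, Matrix.cons_val_zero, Matrix.cons_val_one, Matrix.cons_val]
    ring
  obtain ⟨j₁, hj₁, h, hh, β₁, hβ₁, hqh⟩ := hP w (L3A_cr v w) (L3A_cr_l v w) (L3A_cr_r v w)
  have hqhv : qg h *ᵥ castV v = castV v := by
    rw [hqh, L3A_act, hβ₁, castV_dot, L3A_cr_l]
    simp
  have hqhw : qg h *ᵥ castV w = castV w + (β₁ ⬝ᵥ castV w) • castV v := by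
    rw [hqh, L3A_act, castV_dot, L3A_cr_r]
    simp
  have hqhe : qg h *ᵥ castV e = castV e + (-((w ⬝ᵥ w : ℤ) : ℚ) * j₁) • castV w + (β₁ ⬝ᵥ castV e) • castV v := by
    rw [hqh, L3A_act, castV_dot, hψ₁e, smul_smul]
    push_cast
    rfl
  obtain ⟨q, hq, hqC⟩ := exists_pow_cong h (φ ⬝ᵥ b).natAbs (Int.natAbs_ne_zero.2 hM)
  obtain ⟨B, hBm⟩ := mem_Cong.1 hqC
  have hsv : ((h ^ q : SLZ 3) : Matrix (Fin 3) (Fin 3) ℤ) *ᵥ v = v := by
    have h1 : (h : Matrix (Fin 3) (Fin 3) ℤ) *ᵥ v = v := by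
      apply castV_inj
      rw [← qg_mulVec_castV, hqhv]
    have h2 := L3A_zpow_fix h1 (q : ℤ)
    rwa [zpow_natCast] at h2
  obtain ⟨r, hr⟩ := L3A_pow_mod hqhv hqhw hqhe q
  have hdvd : (φ ⬝ᵥ b) ∣ φ ⬝ᵥ (((h ^ q : SLZ 3) : Matrix (Fin 3) (Fin 3) ℤ) *ᵥ e) := by
    rw [hBm, add_mulVec, one_mulVec, dotProduct_add, hdot, zero_add, smul_mulVec, dotProduct_smul, smul_eq_mul]
    exact Dvd.dvd.mul_right (Int.dvd_natAbs.2 (dvd_refl _)) _
  obtain ⟨t, ht⟩ := hdvd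
  have hsb := fixb (h ^ q) hsv
  have hge : ((h ^ q * u ^ (-t) : SLZ 3) : Matrix (Fin 3) (Fin 3) ℤ) *ᵥ e =
      ((h ^ q : SLZ 3) : Matrix (Fin 3) (Fin 3) ℤ) *ᵥ e + (-t) • b := by
    rw [mv_mul, L3A_zpow_add hub hue, mulVec_add, mulVec_smul, hsb]
  refine hFCQ 3 (le_refl 3) H hD z₀ hz₀ (h ^ q * u ^ (-t)) (H.mul_mem (H.pow_mem hh q) (H.zpow_mem hu _))
    (castV e) (castV φ) hce hcφ hdotQ (by rw [hz, qg_tv hdot]) ?_ (Or.inl ?_)
  · rw [qg_mulVec_castV, castV_dot, hge, dotProduct_add, dotProduct_smul, ht, smul_eq_mul]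
    have : (φ ⬝ᵥ b) * t + -t * (φ ⬝ᵥ b) = 0 := by ring
    rw [this]
    rfl
  · intro c hc
    rw [qg_mulVec_castV, hge] at hc
    have h1 : castV (((h ^ q : SLZ 3) : Matrix (Fin 3) (Fin 3) ℤ) *ᵥ e + (-t) • b) =
        castV (((h ^ q : SLZ 3) : Matrix (Fin 3) (Fin 3) ℤ) *ᵥ e) + (-(t : ℚ)) • castV b := by
      funext i; simp [castV]
    rw [h1, ← qg_mulVec_castV, hr, hcb] at hc
    have h2 := congrArg (fun y => castV w ⬝ᵥ y) hc
    simp only [dotProduct_add, dotProduct_smul, castV_dot, hwe, hwv, smul_eq_mul] at h2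
    have h3 : ((w ⬝ᵥ w : ℤ) : ℚ) ≠ 0 := by exact_mod_cast hww.ne'
    have h4 : (j₁ : ℚ) ≠ 0 := by exact_mod_cast (by omega : j₁ ≠ 0)
    have h5 : (q : ℚ) ≠ 0 := by exact_mod_cast (by omega : q ≠ 0)
    apply mul_ne_zero (mul_ne_zero h5 (mul_ne_zero (neg_ne_zero.2 h3) h4)) h3
    push_cast at h2
    linear_combination h2

theorem L3A (hFCQ : FCQ_stmt) : L3A_stmt := by
  intro H hD v hv hP z hz y f hy hfy hfv hqz
  have hf : f ≠ 0 := by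
    rintro rfl
    exact hfv (zero_dotProduct _)
  obtain ⟨m, e, φ, c, d, hm, hc, hd, he, hφ, hq⟩ := FCQ_int z y f hfy hqz
  have hdot : φ ⬝ᵥ e = 0 := by
    have h1 : ((φ ⬝ᵥ e : ℤ) : ℚ) = 0 := by
      rw [← castV_dot, he, hφ, smul_dotProduct, dotProduct_smul, hfy]
      simp
    exact_mod_cast h1
  have hzt : z ^ m = tv e φ := qg_inj (by rw [hq, qg_tv hdot])
  have he0 : e ≠ 0 := by
    rintro rfl
    rw [castV_zero] at he
    exact (smul_ne_zero hc hy) he.symm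
  have hφ0 : φ ≠ 0 := by
    rintro rfl
    rw [castV_zero] at hφ
    exact (smul_ne_zero hd hf) hφ.symm
  have hφv : φ ⬝ᵥ v ≠ 0 := by
    have h1 : ((φ ⬝ᵥ v : ℤ) : ℚ) ≠ 0 := by
      rw [← castV_dot, hφ, smul_dotProduct, smul_eq_mul]
      exact mul_ne_zero hd hfv
    exact_mod_cast h1
  obtain ⟨j, hj, u, hu, β, hβ, hqu⟩ := hP e (L3A_cr v e) (L3A_cr_l v e) (L3A_cr_r v e)
  by_cases hB : β ⬝ᵥ castV e = 0
  · exact L3A_a hFCQ H hD v e φ he0 hdot hφv (z ^ m) (H.pow_mem hz m) hzt u hu j hj β hβ hqu hB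
  · exact L3A_b hFCQ H hD v e φ hP he0 hφ0 hdot hφv (z ^ m) (H.pow_mem hz m) hzt u hu j β hβ hqu hB

end Pool.Agent.LV
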