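import Pool.Agent.helper54.UG.Abs

/-!
# Project lv: homomorphisms with infinite image of groups with the finite quotients of `SL(n, ℤ)`
-/

set_option autoImplicit false

namespace Pool.Agent.LV

open Matrix Pool.Agent.PR

/-- A homomorphism with infinite image to `SL(n, ℤ)` of a finitely generated residually finite group all of whose finite
quotients are quotients of `SL(n, ℤ)` is injective, with profinitely dense image. -/
theorem Prof_hom {n : ℕ} (hn : 3 ≤ n) {Γ : Type} [Group Γ] (hfg : Group.FG Γ)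
    (hrf : ∀ g : Γ, g ≠ 1 → ∃ N : Subgroup Γ, N.index ≠ 0 ∧ g ∉ N)
    (hq : ∀ (Q : Type) [Group Q] [Finite Q], (∃ f : Γ →* Q, Function.Surjective f) →
      ∃ f : SpecialLinearGroup (Fin n) ℤ →* Q, Function.Surjective f)
    (φ : Γ →* SpecialLinearGroup (Fin n) ℤ) (hinf : (Set.range φ).Infinite) :
    Function.Injective φ ∧ Pool.Agent.H48SL.ProfDense φ.range := by
  have hinf' : Infinite φ.range := hinf.to_subtype
  have hQ : QuotLe φ.range (SLZ n) := by
    intro Q _ _ ⟨f, hf⟩
    exact hq Q ⟨f.comp φ.rangeRestrict, hf.comp φ.rangeRestrict_surjective⟩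
  refine ⟨?_, (tLONE n hn φ.range hinf' hQ).1⟩
  have h1 : ∀ q : Nat.Primes, (Set.range ((LONE_f φ.range q).comp φ.rangeRestrict)).Infinite := by
    intro q
    have h2 : Set.range ((LONE_f φ.range q).comp φ.rangeRestrict) = Set.range (LONE_f φ.range q) := by
      rw [MonoidHom.coe_comp, Set.range_comp, Set.range_eq_univ.mpr φ.rangeRestrict_surjective,
        Set.image_univ]
    rw [h2]
    exact LONE_f_inf φ.range q
  have h3 := tLFAI n hn Γ hfg (fun Q _ _ h => hq Q h) hrf
    (fun q => (LONE_f φ.range q).comp φ.rangeRestrict) h1 ⟨2, Nat.prime_two⟩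
  intro a b hab
  apply h3
  show LONE_f φ.range ⟨2, Nat.prime_two⟩ (φ.rangeRestrict a) = LONE_f φ.range ⟨2, Nat.prime_two⟩ (φ.rangeRestrict b)
  have h4 : φ.rangeRestrict a = φ.rangeRestrict b := Subtype.ext hab
  rw [h4]

end Pool.Agent.LV
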