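import Pool.Agent.helper35.LV.Asm0
import Pool.Agent.helper35.LV.L3A
import Pool.Agent.helper35.LV.Prof
import Pool.Agent.helper21.UG.TRP
import Pool.Agent.helper1.LV.CJP
import Pool.Agent.helper1.LV.L2A
import Pool.Agent.helper20.LV.L2B
import Pool.Agent.helper22.LV.CHI
import Pool.Agent.helper22.LV.L3B
import Pool.Agent.helper24.LV.UNI
import Pool.Agent.helper31.LV.HX4
import Pool.Agent.helper33.LV.HX1
import Pool.Agent.helper34.LV.T2B
import Pool.Agent.helper43.LV.HX3
import Pool.Agent.helper45.LV.T2A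
import Pool.Agent.helper45.LV.WD
import Pool.Agent.helper53.LV.FCQ
import Pool.Agent.helper54.LV.K1
import Pool.Agent.helper63.LV.HX2
import Pool.Agent.helper65.LV.L3C
import Pool.Agent.helper80.LV.L2C
import Pool.Agent.helper89.LV.EQK
import Pool.Agent.helper9.LV.WL
import Pool.Agent.helper92.LV.LEV

/-!
# Project lv (MP_a2a22c_al): the Levi criterion, assembly.
-/

set_option autoImplicit false

namespace Pool.Agent.LV

open Matrix Pool.Agent.H48SL Pool.Agent.UG

theorem tL2A : L2A_stmt := L2A EQK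
theorem tL2B : L2B_stmt := L2B EQK tL2A
theorem tL2C : L2C_stmt := L2C FCQ tL2B
theorem tK1 : K1_stmt := K1 FCQ
theorem tHX2 : HX2_stmt := HX2 HX1
theorem tHX4 : HX4_stmt := HX4 tHX2 HX3
theorem tL3A : L3A_stmt := L3A FCQ
theorem tL3B : L3B_stmt := L3B FCQ tHX4
theorem tL3C : L3C_stmt := L3C tL3A
theorem tT1 : T1_stmt := T1_of tK1 tL2C CJP UNI tL3B tL3C
theorem tT2A : T2A_stmt := T2A CHI
theorem tT2B : T2B_stmt := T2B FCQ CHI
theorem tT : T_stmt := T_of tT1 LEV WL WD TRP tT2A tT2B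

end Pool.Agent.LV
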