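import Pool.Agent.helper35.LV.Spec

/-!
# Project lv (MP_a2a22c_al): assembly from the rows (as hypotheses).
-/

set_option autoImplicit false

namespace Pool.Agent.LV

open Matrix Pool.Agent.H48SL Pool.Agent.UG

theorem T1_of (hK1 : K1_stmt) (hL2C : L2C_stmt) (hCJP : CJP_stmt) (hUNI : UNI_stmt)
    (hL3B : L3B_stmt) (hL3C : L3C_stmt) : T1_stmt := by
  intro n hn H hD v hv hP
  rcases Nat.lt_or_ge n 4 with h4 | h4
  · obtain rfl : n = 3 := by omega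
    obtain ⟨g, hg, hdet⟩ := exists_basis hD hv
    set F : Matrix (Fin 3) (Fin 3) ℤ :=
      Matrix.of (fun k i => ((g i : Matrix (Fin 3) (Fin 3) ℤ) *ᵥ v) k) with hF
    have hPV : ∀ l : Fin 3, PV H (fun p => F p l) := fun l => hCJP 3 H v hP (g l) (hg l)
    by_cases hall : ∀ i j k : Fin 3, i ≠ j → j ≠ k → i ≠ k → ∃ h ∈ H, ∃ a c e : ℚ, a ≠ 0 ∧ c ≠ 0 ∧
      qg h * F.map (Int.cast : ℤ → ℚ) = F.map (Int.cast : ℤ → ℚ) * nn i j k a c e
    · exact hL3B H hD F hdet hall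
    · simp only [not_forall] at hall
      obtain ⟨i, j, k, hij, hjk, hik, hno⟩ := hall
      obtain ⟨h, hh, a, c, e, hc, heq⟩ := hUNI H F hdet i j k hij hjk hik (hPV i)
      have ha : a = 0 := by
        by_contra ha
        exact hno ⟨h, hh, a, c, e, ha, hc, heq⟩
      subst ha
      exact hL3C H hD F hdet hPV i j k hij hjk hik h hh c e hc heq
  · by_cases hNK : NoK H v
    · exact hL2C n h4 H hD v hv hP hNK
    · exact hK1 n hn H hD v hv hP hNK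

theorem T_of (hT1 : T1_stmt) (hLEV : LEV_stmt) (hWL : WL_stmt) (hWD : WD_stmt) (hTRP : TRP_stmt)
    (hT2A : T2A_stmt) (hT2B : T2B_stmt) : T_stmt := by
  intro n hn H hD W hW hyp
  obtain ⟨hQ, hP⟩ := hLEV n H W hyp
  obtain ⟨hW0, v₁, hv₁⟩ := hW
  obtain ⟨w₁, hw₁, hw₁0⟩ := Submodule.exists_mem_ne_zero_of_ne_bot hW0
  by_cases hr : ∀ w ∈ W, ¬ Indep w₁ w
  · exact hT1 n hn H hD w₁ hw₁0 (hWL n H W w₁ hw₁0 hw₁ hr hQ)
  · simp only [not_forall, not_not] at hr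
    obtain ⟨w₂, hw₂, hind⟩ := hr
    by_cases hq : ∀ v : Fin n → ℤ, ∃ a b : ℤ, a ≠ 0 ∧ a • v + b • v₁ ∈ W
    · obtain ⟨H', hD', hH', hfi⟩ := hTRP n H hD
      obtain ⟨ψ₀, hψ₀, hPV⟩ := hWD n H H' W v₁ hH' hv₁ hq hP
      exact hfi (hT1 n hn H' hD' ψ₀ hψ₀ hPV)
    · simp only [not_forall, not_exists, not_and] at hq
      obtain ⟨x₂, hx₂⟩ := hq
      have hx : ∀ a b : ℤ, a • v₁ + b • x₂ ∈ W → a = 0 ∧ b = 0 := by
        intro a b hab
        have hb : b = 0 := by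
          by_contra hb
          exact hx₂ b a hb (by rw [add_comm]; exact hab)
        subst hb
        rw [zero_smul, add_zero] at hab
        refine ⟨?_, rfl⟩
        by_contra ha
        exact hv₁ a ha hab
      by_cases hK : ∀ κ ∈ H, κ ∈ Uni W → κ = 1
      · exact hT2B n hn H hD W v₁ x₂ hx w₁ hw₁ w₂ hw₂ hind hQ hP hK
      · simp only [not_forall] at hK
        obtain ⟨κ, hκ, hκU, hκ1⟩ := hK
        exact hT2A n hn H hD W v₁ x₂ hx hQ κ hκ hκ1 hκU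

/-- from finite index to powers of transvections -/
theorem pow_of_relIndex {n : ℕ} {H : Subgroup (SLZ n)} {W : Submodule ℤ (Fin n → ℤ)}
    (h : ((H ⊓ Par W) ⊔ Uni W).relIndex (Par W) ≠ 0) :
    ∀ x ψ : Fin n → ℤ, ψ ⬝ᵥ x = 0 → tv x ψ ∈ Par W → ∃ j : ℕ, 1 ≤ j ∧
      (tv x ψ) ^ j ∈ (H ⊓ Par W) ⊔ Uni W := by
  intro x ψ _ ht
  obtain ⟨j, hj, _, hm⟩ := Subgroup.exists_pow_mem_of_relIndex_ne_zero h ht
  exact ⟨j, hj, hm.1⟩

end Pool.Agent.LV
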