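import Pool.Agent.helper54.UG.Spec

/-!
# Project lv (MP_a2a22c_al): the LEVI CRITERION. Statements of the rows, with complete proofs in the docstrings.

A row XX is a file `Pool/Agent/<seat>/LV/XX.lean` which imports `Pool.Agent.helper35.LV.Spec`, namespace
`Pool.Agent.LV`, `open Matrix Pool.Agent.H48SL Pool.Agent.UG`, with the theorem given in the lock note
(other rows only as hypotheses, auxiliary lemmas with the prefix `XX_`).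
Library: `Pool/Agent/helper48/SLn/*.lean` (namespace `Pool.Agent.H48SL`: `tv`, `tv_coe`, `tv_mulVec`,
`tv_conj`, `tv_zsmul_right`, `tv_smul_comm`, `final_coef`, `same_axis`, `same_centre`, `Indep`, `castV`, `castV_dot`,
`clear_denom`, `exists_pow_cong`, `exists_basis`, `exists_H_dot2`, `mulVec_ne_zero`, `SL_ext`) and
`Pool/Agent/helper54/UG/Basic.lean` (namespace `Pool.Agent.UG`: `SLZ n`, `MQ n`, `qg g` the rational matrix of `g`,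
`qg_mul`, `qg_one`, `qg_pow`, `qg_inj`, `qg_mul_inv`, `qg_inv_mul`, `qg_mulVec_castV`, `castV_vecMul_qg`,
`castV_inj`, `qg_tv`).

THEOREM L. Let `n ≥ 3`, `H ≤ SL(n, ℤ)` Zariski dense, `0 ≠ W ≠ ℚⁿ` a rational subspace, `P` its stabiliser,
`U` the elements of `P` which are trivial on `W` and on `ℚⁿ / W`. If `(H ∩ P) U` has finite index in `P` (`H ∩ P` is mapped
onto a subgroup of finite index of the Levi factor `P / U`) then `H` has finite index in `SL(n, ℤ)`.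
-/

set_option autoImplicit false

namespace Pool.Agent.LV

open Matrix Pool.Agent.H48SL Pool.Agent.UG

/-! ### Vectors -/

/-- The stabiliser of `v` in `H` induces on `ℚⁿ / ℚ v` a power of every transvection `1 + x ψ`. -/
def PV {n : ℕ} (H : Subgroup (SLZ n)) (v : Fin n → ℤ) : Prop :=
  ∀ x ψ : Fin n → ℤ, ψ ⬝ᵥ v = 0 → ψ ⬝ᵥ x = 0 → ∃ j : ℕ, 1 ≤ j ∧ ∃ h ∈ H, ∃ β : Fin n → ℚ,
    β ⬝ᵥ castV v = 0 ∧
    qg h = 1 + vecMulVec ((j : ℚ) • castV x) (castV ψ) + vecMulVec (castV v) β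

/-- Elements of `H` which fix `v` are determined by the action on `ℚⁿ / ℚ v`. -/
def NoK {n : ℕ} (H : Subgroup (SLZ n)) (v : Fin n → ℤ) : Prop :=
  ∀ h ∈ H, ∀ β : Fin n → ℚ, β ⬝ᵥ castV v = 0 → qg h = 1 + vecMulVec (castV v) β → h = 1

/-- FCQ. `final_coef` for rational transvections. Proof. `clear_denom` gives `N₁ N₂ ≠ 0` with `N₁ y = castV e`,
`N₂ f = castV φ`. `qg (z ^ m) = 1 + m y f` for `m : ℤ` (or only `m : ℕ`; `(y f)² = 0`; replace `N₁` by `-N₁` and `e` by `-e`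
so that `N₁ N₂ > 0`), so `z ^ (N₁ N₂) = tv e φ =: z'`, `z' ∈ H`, `z' ≠ 1`, `e, φ ≠ 0`, `φ ⬝ᵥ e = 0`. `final_coef` with
`z'`, `g`: `φ ⬝ᵥ (g e) = 0` by `castV_dot`, `qg_mulVec_castV`. If `g y` is not a multiple of `y` then `g z' g⁻¹ = tv (g e) (φ g⁻¹)`
(`tv_conj`) has image `ℚ (g e)` and is not `z'` or `z'⁻¹`. In the other case `g ^ k = z' ^ m = z ^ (N₁ N₂ m)` is
excluded. -/
def FCQ_stmt : Prop :=
  ∀ (n : ℕ), 3 ≤ n → ∀ H : Subgroup (SLZ n), ZDense H → ∀ z ∈ H, ∀ g ∈ H, ∀ y f : Fin n → ℚ,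
    y ≠ 0 → f ≠ 0 → f ⬝ᵥ y = 0 → qg z = 1 + vecMulVec y f → f ⬝ᵥ (qg g *ᵥ y) = 0 →
    ((∀ c : ℚ, qg g *ᵥ y ≠ c • y) ∨ ∀ k : ℕ, 1 ≤ k → ∀ m : ℤ, g ^ k ≠ z ^ m) → H.FiniteIndex

/-! ### A vector, `n ≥ 4` -/

/-- K1. A transvection with centre `v`. Proof. `β ≠ 0` as `h₀ ≠ 1`. There are integer rows `ψ ≠ 0`, `x` with `ψ v = 0`,
`ψ x = 0`, `β x ≠ 0`: let `v_r ≠ 0`; for `p ≠ r` let `ψ_p = v_r e_p - v_p e_r` (`ψ_p v = 0`). Two of them (`n ≥ 3`) are linearly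
independent, so one, `ψ`, is not proportional to `β` (`β = c ψ_p = c' ψ_q` gives `β = 0`); so some
minor `ψ_p β_q - ψ_q β_p ≠ 0`, and `x = ψ_p e_q - ψ_q e_p` (or its negative) has `ψ x = 0`, `β x ≠ 0`. Take `h`, `j`, `β'`
from `PV`. `FCQ` with `z = h₀` (`y = v`, `f = β`) and `g = h`: `h v = v` (`ψ v = 0`, `β' v = 0`), so `β (h v) = 0`. Second alternative: let
`h ^ k = h₀ ^ m`, `k ≥ 1`. For `u` with `ψ u ≠ 0`: `h ^ k u - u - k j (ψ u) x ∈ ℚ v` (induction, `h x - x ∈ ℚ v`), `h₀ ^ m u - u ∈ ℚ v`, so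
`x ∈ ℚ v`, `β x = 0`, a contradiction. -/
def K1_stmt : Prop :=
  ∀ (n : ℕ), 3 ≤ n → ∀ H : Subgroup (SLZ n), ZDense H → ∀ v : Fin n → ℤ, v ≠ 0 → PV H v →
    ¬ NoK H v → H.FiniteIndex

/-- EQK. Proof. `g₁ g₂⁻¹ ∈ H` has the matrix `1 + v (γ g₂⁻¹)`, and `(γ g₂⁻¹) v = γ (g₂⁻¹ v) = γ v = 0`. So
`g₁ g₂⁻¹ = 1` by `NoK`, `g₁ = g₂`, `vecMulVec v γ = 0`, `γ = 0`. -/
def EQK_stmt : Prop :=
  ∀ (n : ℕ) (H : Subgroup (SLZ n)) (v : Fin n → ℤ), v ≠ 0 → NoK H v → ∀ g₁ ∈ H, ∀ g₂ ∈ H,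
    ∀ γ : Fin n → ℚ, γ ⬝ᵥ castV v = 0 → qg g₂ *ᵥ castV v = castV v →
    qg g₁ = qg g₂ + vecMulVec (castV v) γ → γ = 0

/-- L2A. (`x` is a rational vector.) Proof. If `x` is a rational multiple of `v` then `β x = 0`. Otherwise let `N x = castV x'`, `N ≠ 0`
(`clear_denom`). There is an integer row `ψ₂` with `ψ₂ v = 0`, `ψ₂ x = 0` which is not a rational multiple of `ψ` (the rows which
kill `v` and `x` form a space of dimension `n - 2 ≥ 2`; for integrality use `clear_denom`; the case that `x` is a multiple of `v` needs no special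
treatment). `PV` for `x', ψ₂`: `h₂`, `j₂`, `β₂`; put `c = j₂ N ≠ 0`, `qg h₂ = 1 + c x ψ₂ + v β₂`.
As `ψ x = ψ v = β v = 0`: `(x ψ + v β)(c x ψ₂ + v β₂) = c (β x) v ψ₂`, so
`h h₂ = 1 + x ψ + v β + c x ψ₂ + v β₂ + c (β x) v ψ₂`, `h₂ h = the same with (β₂ x) v ψ` as last term. `EQK` (`g₁ = h h₂`,
`g₂ = h₂ h`, `γ = c (β x) ψ₂ - (β₂ x) ψ`): `γ = 0`, and as `ψ₂` is not a multiple of `ψ ≠ 0`, `c (β x) = 0`. -/
def L2A_stmt : Prop :=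
  ∀ (n : ℕ), 4 ≤ n → ∀ (H : Subgroup (SLZ n)) (v : Fin n → ℤ), v ≠ 0 → PV H v → NoK H v →
    ∀ h ∈ H, ∀ (x : Fin n → ℚ) (ψ : Fin n → ℤ) (β : Fin n → ℚ), ψ ≠ 0 → ψ ⬝ᵥ v = 0 → castV ψ ⬝ᵥ x = 0 →
    β ⬝ᵥ castV v = 0 → qg h = 1 + vecMulVec x (castV ψ) + vecMulVec (castV v) β → β ⬝ᵥ x = 0

/-- L2B. Proof. Computation as in L2A: `h₁ h₂ = 1 + (x₁ + x₂) ψ + v (β₁ + β₂) + (β₁ x₂) v ψ`, `h₂ h₁` the same with `β₂ x₁`.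
`EQK`: `(β₁ x₂ - β₂ x₁) ψ = 0`, so `β₁ x₂ = β₂ x₁`. `L2A` for `h₁`, `h₂` and `h₁ h₂` (`x = x₁ + x₂`,
`β = β₁ + β₂ + (β₁ x₂) ψ`): `β₁ x₁ = 0`, `β₂ x₂ = 0`, `0 = (β₁ + β₂)(x₁ + x₂) = β₁ x₂ + β₂ x₁`. So `β₁ x₂ = 0`. -/
def L2B_stmt : Prop :=
  ∀ (n : ℕ), 4 ≤ n → ∀ (H : Subgroup (SLZ n)) (v : Fin n → ℤ), v ≠ 0 → PV H v → NoK H v →
    ∀ h₁ ∈ H, ∀ h₂ ∈ H, ∀ (x₁ x₂ : Fin n → ℚ) (ψ : Fin n → ℤ) (β₁ β₂ : Fin n → ℚ), ψ ≠ 0 →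
    ψ ⬝ᵥ v = 0 → castV ψ ⬝ᵥ x₁ = 0 → castV ψ ⬝ᵥ x₂ = 0 → β₁ ⬝ᵥ castV v = 0 → β₂ ⬝ᵥ castV v = 0 →
    qg h₁ = 1 + vecMulVec x₁ (castV ψ) + vecMulVec (castV v) β₁ →
    qg h₂ = 1 + vecMulVec x₂ (castV ψ) + vecMulVec (castV v) β₂ → β₁ ⬝ᵥ x₂ = 0

/-- L2C. Proof. Choose an integer row `ψ ≠ 0` with `ψ v = 0` and integer vectors `x₁`, `x₂` with `ψ x_i = 0` such that `v, x₁, x₂` are
linearly independent over `ℚ` (`ker ψ` has dimension `n - 1 ≥ 3`). `PV`: `h_i`, `j_i`, `β_i`. For every integer `x` with `ψ x = 0`, `PV` for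
`x, ψ` and `L2B` (for `h_i` and this element, `x₂ := j x`) give `j (β_i x) = 0`, `β_i x = 0`. So `β_i` vanishes on the integer
vectors in `ker ψ`, hence `β_i = c_i ψ` (with `ψ_r ≠ 0`: `c_i = (β_i)_r / ψ_r`, test `x = ψ_r e_p - ψ_p e_r`). So
`qg h_i = 1 + (j_i x_i + c_i v) ψ`. `FCQ` with `z = h₁`, `g = h₂`: `y = j₁ x₁ + c₁ v ≠ 0`, `h₂ y = y` as `ψ y = 0`. Second alternative:
`h₂ ^ k = h₁ ^ m` gives `k (j₂ x₂ + c₂ v) = m (j₁ x₁ + c₁ v)` (apply both to `u` with `ψ u ≠ 0`), against linear independence. -/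
def L2C_stmt : Prop :=
  ∀ (n : ℕ), 4 ≤ n → ∀ H : Subgroup (SLZ n), ZDense H → ∀ v : Fin n → ℤ, v ≠ 0 → PV H v →
    NoK H v → H.FiniteIndex

/-! ### A vector, `n = 3` -/

/-- CJP. Conjugation. Proof. Given `x`, `ψ` with `ψ (g v) = 0`, `ψ x = 0`, apply `PV H v` to `x' = g⁻¹ x`, `ψ' = ψ g` and conjugate the element by
`g`: `g h g⁻¹ = 1 + j (g x') (ψ' g⁻¹) + (g v) (β g⁻¹)`. -/
def CJP_stmt : Prop :=
  ∀ (n : ℕ) (H : Subgroup (SLZ n)) (v : Fin n → ℤ), PV H v → ∀ g ∈ H,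
    PV H ((g : Matrix (Fin n) (Fin n) ℤ) *ᵥ v)

/-- the matrix `1 + r E_ij` -/
def xm (i j : Fin 3) (r : ℚ) : MQ 3 := 1 + Matrix.single i j r

/-- the matrix `1 + a E_ij + c E_jk + e E_ik` -/
def nn (i j k : Fin 3) (a c e : ℚ) : MQ 3 :=
  1 + Matrix.single i j a + Matrix.single j k c + Matrix.single i k e

/-- UNI. The unipotent elements of a basis. `F` has the columns `v_l = F.col l`, and `PV H v_i` is assumed. Proof. `x = v_j`, `ψ` = the row `k` of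
the adjugate of `F`: `ψ v_l = det F` if `l = k` and `0` otherwise. `PV`: `h v_l = v_l + j' ψ(v_l) v_j + β(v_l) v_i`. So in the basis `(v_l)`
`h = 1 + a E_ij + c E_jk + e E_ik` with `c = j' det F ≠ 0`, `a = β(v_j)`, `e = β(v_k)` (compare the columns of `h F` and `F (nn ..)`). -/
def UNI_stmt : Prop :=
  ∀ (H : Subgroup (SLZ 3)) (F : Matrix (Fin 3) (Fin 3) ℤ), F.det ≠ 0 →
    ∀ i j k : Fin 3, i ≠ j → j ≠ k → i ≠ k → PV H (fun p => F p i) →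
    ∃ h ∈ H, ∃ a c e : ℚ, c ≠ 0 ∧
      qg h * F.map (Int.cast : ℤ → ℚ) = F.map (Int.cast : ℤ → ℚ) * nn i j k a c e

/-- L3A. The case of a transvection. Proof. As in FCQ some power `z ^ N`, `N ≥ 1`, is `tv x₀ f₀` with integral `x₀, f₀ ≠ 0`,
`f₀ x₀ = 0`, `castV x₀` a nonzero multiple of `y` and `castV f₀` of `f`, so `f₀ v ≠ 0` and `x₀, v` are linearly independent. Let `ψ = v × x₀` (`crossProduct`, or written
out): `ψ v = ψ x₀ = 0`, `ψ ≠ 0`. `PV`: `u = 1 + j x₀ ψ + v β ∈ H`, `u v = v`, `u x₀ = x₀ + B v`, `B = β x₀`.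
(a) `B = 0`: `β v = β x₀ = 0`, so `β = c ψ` and `u = 1 + (j x₀ + c v) ψ`. FCQ with `z = u` (centre `j x₀ + c v ≠ 0`), `g = tv x₀ f₀ =: z₀`:
`ψ (z₀ w) = ψ w + f₀(w) ψ(x₀) = 0` for `w = j x₀ + c v`. `z₀ ^ k v = v + k f₀(v) x₀ ≠ v` for `k ≥ 1`, `u ^ m v = v`.
(b) `B ≠ 0`. `b = u x₀ - x₀` is integral, `castV b = B v`, `u b = b`, so `u ^ t x₀ = x₀ + t b` for `t : ℤ`. `M = f₀ b ≠ 0` is an integer. Let `w` be
an integral vector such that `v, w, x₀` are linearly independent and `ψ₁ = v × w`: `ψ₁ v = ψ₁ w = 0`, `ψ₁ x₀ ≠ 0`. `PV` (`x := w`, `ψ₁`):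
`h = 1 + j₁ w ψ₁ + v β₁ ∈ H`. `exists_pow_cong h |M|`: `q ≥ 1` with `s = h ^ q = 1 mod M`. `s v = v`,
`s x₀ - x₀ - q j₁ ψ₁(x₀) w ∈ ℚ v`. `f₀(s x₀) = f₀(x₀) = 0 mod M`, so `t = - f₀(s x₀) / f₀(b)` is an integer. `g = s u ^ t ∈ H`:
`g x₀ = s x₀ + t b`, `f₀(g x₀) = 0`, and `g x₀` is not a multiple of `x₀` (its `w`-coordinate is not `0`). `FCQ` (first alternative) with `z₀`, `g`. -/
def L3A_stmt : Prop :=
  ∀ (H : Subgroup (SLZ 3)), ZDense H → ∀ v : Fin 3 → ℤ, v ≠ 0 → PV H v → ∀ z ∈ H,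
    ∀ y f : Fin 3 → ℚ, y ≠ 0 → f ⬝ᵥ y = 0 → f ⬝ᵥ castV v ≠ 0 → qg z = 1 + vecMulVec y f →
    H.FiniteIndex

/-- `S` is a group of matrices -/
def IsGrp (S : Set (MQ 3)) : Prop :=
  1 ∈ S ∧ (∀ A ∈ S, ∀ B ∈ S, A * B ∈ S) ∧ ∀ A ∈ S, ∃ B ∈ S, A * B = 1 ∧ B * A = 1

/-- the matrices `A` and `B` are in the same left coset of `S` -/
def Rel (S : Set (MQ 3)) (A B : MQ 3) : Prop := ∃ C ∈ S, A = B * C

/-- HX1. Powers. Proof. `nn i j k a c e * nn i j k a' c' e' = nn i j k (a + a') (c + c') (e + e' + a c')` (the products of the matrix units: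
`E_ij E_jk = E_ik`, all others are `0`). Induction on `m : ℕ`; the inverse of `nn (ma) (mc) (me + m(m-1)/2 ac)` is the matrix for `-m`. -/
def HX1_stmt : Prop :=
  ∀ (S : Set (MQ 3)), IsGrp S → ∀ i j k : Fin 3, i ≠ j → j ≠ k → i ≠ k → ∀ a c e : ℚ,
    nn i j k a c e ∈ S → ∀ m : ℤ,
    nn i j k (m * a) (m * c) (m * e + m * (m - 1) / 2 * (a * c)) ∈ S

/-- HX2. One step. Proof. First part: with `r = m c` and `y' = y + (a c / 2) m² + (a c / 2 - e) m`: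
`xm j k r * xm i k y = xm i j (- m a) * xm i k y' * nn (ma) (mc) (me + m(m-1)/2 ac)` (all are `nn`'s:
`nn 0 r y`, `nn (-ma) 0 y'`), and HX1. `(a c / 2) m² = (a / (2 c)) r²`, `(a c / 2 - e) m = (a / 2 - e / c) r`.
Second part: the same with `r = - m a`, i.e. HX1 for `-m`, and the inverse of the matrix in `S`. -/
def HX2_stmt : Prop :=
  ∀ (S : Set (MQ 3)), IsGrp S → ∀ i j k : Fin 3, i ≠ j → j ≠ k → i ≠ k → ∀ a c e : ℚ,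
    a ≠ 0 → c ≠ 0 → nn i j k a c e ∈ S → ∀ (m : ℤ) (r y : ℚ),
    (r = m * c → Rel S (xm j k r * xm i k y)
      (xm i j (-(a / c) * r) * xm i k (y + a / (2 * c) * r ^ 2 + (a / 2 - e / c) * r))) ∧
    (r = m * a → Rel S (xm i j r * xm i k y)
      (xm j k (-(c / a) * r) * xm i k (y + -(c / (2 * a)) * r ^ 2 + (c / 2 - e / a) * r)))

/-- the two coordinates after `t` steps, polynomials in the first coordinate -/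
noncomputable def AB (α κ l : ℕ → ℚ) : ℕ → Polynomial ℚ × Polynomial ℚ
  | 0 => (0, Polynomial.X)
  | t + 1 => (Polynomial.C (α t) * (AB α κ l t).2,
      (AB α κ l t).1 + Polynomial.C (κ t) * (AB α κ l t).2 ^ 2 + Polynomial.C (l t) * (AB α κ l t).2)

/-- HX3. Degrees and denominators. Proof. (1) By induction `natDegree (AB t).2 = 2 ^ t` (with nonzero leading coefficient) and
`natDegree (AB t).1 ≤ 2 ^ (t - 1)` for `t ≥ 1`. (2) `(AB t).1` and `(AB t).2` vanish at `0`. For a polynomial `P` over `ℚ` with `P(0) = 0`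
and `γ ≠ 0` the product `D` of the denominators of the coefficients of `P / γ` satisfies `P(D s) ∈ γ ℤ` for `s : ℤ`; multiples of `D` also
work. (3) If `A(D s₁) (B(D s₂) - D s₂) = A(D s₂) (B(D s₁) - D s₁)` for all integers `s₁, s₂`, `(A, B) = AB 6`, then choose `s₂` with `A(D s₂) ≠ 0`
(`A ≠ 0` has degree `32`); the polynomials `A (B(D s₂) - D s₂)` and `A(D s₂) (B - X)` agree at infinitely many points; degrees `≤ 32` and `64`. -/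
def HX3_stmt : Prop :=
  ∀ (α κ l γ : ℕ → ℚ), (∀ t, α t ≠ 0) → (∀ t, κ t ≠ 0) → (∀ t, γ t ≠ 0) →
    ∃ D : ℕ, 1 ≤ D ∧
      (∀ (s : ℤ) (t : ℕ), t < 6 → ∃ m : ℤ, ((AB α κ l t).2).eval ((D : ℚ) * s) = m * γ t) ∧
      ∃ s₁ s₂ : ℤ,
        ((AB α κ l 6).1).eval ((D : ℚ) * s₁) * (((AB α κ l 6).2).eval ((D : ℚ) * s₂) - D * s₂) ≠
        ((AB α κ l 6).1).eval ((D : ℚ) * s₂) * (((AB α κ l 6).2).eval ((D : ℚ) * s₁) - D * s₁)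

/-- HX4. The hexagon. Proof. Let `s` be an integer, `(A_t, B_t)` the values of `AB t` at `D s`. By HX2 (first part for even `t`, second part for odd `t`), with
the triples `(0,1,2), (0,2,1), (2,0,1), (2,1,0), (1,2,0), (1,0,2)` for `t = 0, ..., 5` and
`α t = -(a/c)`, `κ t = a/(2c)`, `l t = a/2 - e/c`, `γ t = c` for even `t`, `α t = -(c/a)`, `κ t = -(c/(2a))`, `l t = c/2 - e/a`, `γ t = a` for odd `t`
(for `t ≥ 6` put `1`), the following matrices are in the same left coset of `S`: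
`xm 1 2 B₀ * xm 0 2 A₀`, `xm 0 1 A₁ * xm 0 2 B₁`, `xm 2 1 A₂ * xm 0 1 B₂`, `xm 2 0 A₃ * xm 2 1 B₃`, `xm 1 0 A₄ * xm 2 0 B₄`,
`xm 1 2 A₅ * xm 1 0 B₅`, `xm 0 2 A₆ * xm 1 2 B₆` (the two factors commute in each case). `B₀ = D s`, `A₀ = 0`. So
`xm 1 2 (D s) = xm 0 2 A₆ * xm 1 2 B₆ * C`, `C ∈ S`, and `C = xm 1 2 (D s - B₆) * xm 0 2 (- A₆)`. Take `s = s₁, s₂` of HX3. -/
def HX4_stmt : Prop :=
  ∀ (S : Set (MQ 3)), IsGrp S →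
    (∀ i j k : Fin 3, i ≠ j → j ≠ k → i ≠ k → ∃ a c e : ℚ, a ≠ 0 ∧ c ≠ 0 ∧ nn i j k a c e ∈ S) →
    ∃ r₁ t₁ r₂ t₂ : ℚ, r₁ * t₂ ≠ r₂ * t₁ ∧ xm 1 2 r₁ * xm 0 2 t₁ ∈ S ∧ xm 1 2 r₂ * xm 0 2 t₂ ∈ S

/-- L3B. Proof. `S = {M : ∃ h ∈ H, qg h * F = F * M}` is a group of matrices (`F` invertible over `ℚ`). HX4 gives `z_i ∈ H` with
`qg z_i = F (1 + r_i E_12 + t_i E_02) F⁻¹ = 1 + y_i f`, `y_i = r_i v_1 + t_i v_0`, `v_l` the columns of `F`, `f` the row `2` of `F⁻¹`. `f y_i = 0`, `f ≠ 0`, and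
`y_1, y_2` are linearly independent (`r₁ t₂ ≠ r₂ t₁`). `FCQ` with `z = z_1`, `g = z_2` (`z_2 y_1 = y_1`); `z_2 ^ k = z_1 ^ m` gives
`k y_2 = m y_1`. -/
def L3B_stmt : Prop :=
  ∀ (H : Subgroup (SLZ 3)), ZDense H → ∀ F : Matrix (Fin 3) (Fin 3) ℤ, F.det ≠ 0 →
    (∀ i j k : Fin 3, i ≠ j → j ≠ k → i ≠ k → ∃ h ∈ H, ∃ a c e : ℚ, a ≠ 0 ∧ c ≠ 0 ∧
      qg h * F.map (Int.cast : ℤ → ℚ) = F.map (Int.cast : ℤ → ℚ) * nn i j k a c e) → H.FiniteIndex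

/-- L3C. A degenerate element. Proof. `qg h = F (1 + c E_jk + e E_ik) F⁻¹ = 1 + (c v_j + e v_i) f`, `f` the row `k` of `F⁻¹`, is a transvection, `f (v_k) = 1 ≠ 0`.
L3A with `v := v_k`. -/
def L3C_stmt : Prop :=
  ∀ (H : Subgroup (SLZ 3)), ZDense H → ∀ F : Matrix (Fin 3) (Fin 3) ℤ, F.det ≠ 0 →
    (∀ l : Fin 3, PV H (fun p => F p l)) → ∀ i j k : Fin 3, i ≠ j → j ≠ k → i ≠ k →
    ∀ h ∈ H, ∀ c e : ℚ, c ≠ 0 →
    qg h * F.map (Int.cast : ℤ → ℚ) = F.map (Int.cast : ℤ → ℚ) * nn i j k 0 c e → H.FiniteIndex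

/-- T1. The criterion for a vector (assembly). -/
def T1_stmt : Prop :=
  ∀ (n : ℕ), 3 ≤ n → ∀ H : Subgroup (SLZ n), ZDense H → ∀ v : Fin n → ℤ, v ≠ 0 → PV H v →
    H.FiniteIndex

/-! ### Subspaces -/

theorem mv_mul {n : ℕ} (a b : SLZ n) (w : Fin n → ℤ) :
    ((a * b : SLZ n) : Matrix (Fin n) (Fin n) ℤ) *ᵥ w =
      (a : Matrix (Fin n) (Fin n) ℤ) *ᵥ ((b : Matrix (Fin n) (Fin n) ℤ) *ᵥ w) := by
  rw [Matrix.SpecialLinearGroup.coe_mul, mulVec_mulVec]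

theorem mv_one {n : ℕ} (w : Fin n → ℤ) :
    ((1 : SLZ n) : Matrix (Fin n) (Fin n) ℤ) *ᵥ w = w := by
  rw [Matrix.SpecialLinearGroup.coe_one, one_mulVec]

theorem mv_inv_left {n : ℕ} (a : SLZ n) (w : Fin n → ℤ) :
    ((a⁻¹ : SLZ n) : Matrix (Fin n) (Fin n) ℤ) *ᵥ ((a : Matrix (Fin n) (Fin n) ℤ) *ᵥ w) = w := by
  rw [← mv_mul, inv_mul_cancel, mv_one]

theorem mv_inv_right {n : ℕ} (a : SLZ n) (w : Fin n → ℤ) :
    (a : Matrix (Fin n) (Fin n) ℤ) *ᵥ (((a⁻¹ : SLZ n) : Matrix (Fin n) (Fin n) ℤ) *ᵥ w) = w := by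
  rw [← mv_mul, mul_inv_cancel, mv_one]

/-- the stabiliser of `W` -/
def Par {n : ℕ} (W : Submodule ℤ (Fin n → ℤ)) : Subgroup (SLZ n) where
  carrier := {g | ∀ w, (g : Matrix (Fin n) (Fin n) ℤ) *ᵥ w ∈ W ↔ w ∈ W}
  one_mem' := by
    intro w
    rw [mv_one]
  mul_mem' := by
    intro a b ha hb w
    rw [mv_mul]
    exact (ha _).trans (hb w)
  inv_mem' := by
    intro a ha w
    have h1 := ha (((a⁻¹ : SLZ n) : Matrix (Fin n) (Fin n) ℤ) *ᵥ w)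
    rw [mv_inv_right] at h1
    exact h1.symm

theorem mem_Par {n : ℕ} {W : Submodule ℤ (Fin n → ℤ)} {g : SLZ n} :
    g ∈ Par W ↔ ∀ w, (g : Matrix (Fin n) (Fin n) ℤ) *ᵥ w ∈ W ↔ w ∈ W := Iff.rfl

/-- the elements which are trivial on `W` and on `ℤⁿ / W` -/
def Uni {n : ℕ} (W : Submodule ℤ (Fin n → ℤ)) : Subgroup (SLZ n) where
  carrier := {g | (∀ w ∈ W, (g : Matrix (Fin n) (Fin n) ℤ) *ᵥ w = w) ∧
    ∀ v, (g : Matrix (Fin n) (Fin n) ℤ) *ᵥ v - v ∈ W}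
  one_mem' := by
    constructor
    · intro w _; rw [mv_one]
    · intro v; rw [mv_one, sub_self]; exact W.zero_mem
  mul_mem' := by
    intro a b ha hb
    constructor
    · intro w hw
      rw [mv_mul, hb.1 w hw, ha.1 w hw]
    · intro v
      rw [mv_mul]
      have h3 := W.add_mem (ha.2 ((b : Matrix (Fin n) (Fin n) ℤ) *ᵥ v)) (hb.2 v)
      rw [sub_add_sub_cancel] at h3
      exact h3
  inv_mem' := by
    intro a ha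
    have h1 : ∀ w ∈ W, ((a⁻¹ : SLZ n) : Matrix (Fin n) (Fin n) ℤ) *ᵥ w = w := by
      intro w hw
      have := mv_inv_left a w
      rw [ha.1 w hw] at this
      exact this
    refine ⟨h1, fun v => ?_⟩
    have h2 := ha.2 (((a⁻¹ : SLZ n) : Matrix (Fin n) (Fin n) ℤ) *ᵥ v)
    rw [mv_inv_right] at h2
    have h3 := W.neg_mem h2
    rw [neg_sub] at h3
    exact h3

theorem mem_Uni {n : ℕ} {W : Submodule ℤ (Fin n → ℤ)} {g : SLZ n} :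
    g ∈ Uni W ↔ (∀ w ∈ W, (g : Matrix (Fin n) (Fin n) ℤ) *ᵥ w = w) ∧
      ∀ v, (g : Matrix (Fin n) (Fin n) ℤ) *ᵥ v - v ∈ W := Iff.rfl

/-- `W` is a proper nonzero subspace (over `ℚ`) -/
def Proper {n : ℕ} (W : Submodule ℤ (Fin n → ℤ)) : Prop :=
  W ≠ ⊥ ∧ ∃ v, ∀ c : ℤ, c ≠ 0 → c • v ∉ W

/-- `H` contains elements which are trivial on `W` and act on the quotient as a power of `1 + x ψ` -/
def PQ {n : ℕ} (H : Subgroup (SLZ n)) (W : Submodule ℤ (Fin n → ℤ)) : Prop :=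
  ∀ x ψ : Fin n → ℤ, (∀ w ∈ W, ψ ⬝ᵥ w = 0) → ψ ⬝ᵥ x = 0 → ∃ j : ℕ, 1 ≤ j ∧ ∃ h ∈ H,
    (∀ w ∈ W, (h : Matrix (Fin n) (Fin n) ℤ) *ᵥ w = w) ∧
    ∀ v, (h : Matrix (Fin n) (Fin n) ℤ) *ᵥ v - v - ((j : ℤ) * (ψ ⬝ᵥ v)) • x ∈ W

/-- `H` contains elements which are trivial on the quotient and act on `W` as a power of `1 + x ψ` -/
def PW {n : ℕ} (H : Subgroup (SLZ n)) (W : Submodule ℤ (Fin n → ℤ)) : Prop :=
  ∀ x ∈ W, ∀ ψ : Fin n → ℤ, ψ ⬝ᵥ x = 0 → ∃ j : ℕ, 1 ≤ j ∧ ∃ h ∈ H,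
    (∀ w ∈ W, (h : Matrix (Fin n) (Fin n) ℤ) *ᵥ w = w + ((j : ℤ) * (ψ ⬝ᵥ w)) • x) ∧
    ∀ v, (h : Matrix (Fin n) (Fin n) ℤ) *ᵥ v - v ∈ W

/-- LEV. Proof. (1) The set `L` of all `g ∈ Par W` for which there is `h ∈ H ⊓ Par W` with `h w = g w` for `w ∈ W` and `h v - g v ∈ W` for all `v`
is a subgroup (`h₁ h₂ v - g₁ g₂ v = h₁ (h₂ v - g₂ v) + (h₁ - g₁) (g₂ v)`; inverses: `h⁻¹ w = g⁻¹ w`; `h⁻¹ v - g⁻¹ v = h⁻¹ (g u - h u)`,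
`u = g⁻¹ v`) and contains `H ⊓ Par W` and `Uni W` (with `h = 1`; `Uni W ≤ Par W`: `g v - v ∈ W`), so `(H ⊓ Par W) ⊔ Uni W ≤ L`. (2) For `x, ψ` with `ψ W = 0`, or with
`x ∈ W`, `tv x ψ ∈ Par W` (`tv x ψ w = w + (ψ w) x`; for `x ∈ W` clear; for `ψ W = 0`: if `w + (ψ w) x ∈ W` then `ψ` of it, `ψ w + (ψ w)(ψ x) = ψ w`, is `0`, so
it is `w`). (3) The hypothesis: `(tv x ψ) ^ j = tv x (j ψ) ∈ L`, which gives `h`. -/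
def LEV_stmt : Prop :=
  ∀ (n : ℕ) (H : Subgroup (SLZ n)) (W : Submodule ℤ (Fin n → ℤ)),
    (∀ x ψ : Fin n → ℤ, ψ ⬝ᵥ x = 0 → tv x ψ ∈ Par W → ∃ j : ℕ, 1 ≤ j ∧
      (tv x ψ) ^ j ∈ (H ⊓ Par W) ⊔ Uni W) → PQ H W ∧ PW H W

/-- WL. `W` of rank one. Proof. For `x, ψ` with `ψ v = 0`: `ψ w = 0` for all `w ∈ W` as `a w = b v`, `a ≠ 0`. `PQ` gives `h`, `h v = v`, and `h u - u - j (ψ u) x ∈ W`
is a rational multiple of `v` for all `u`: with `v_r ≠ 0` put `β_p = (h e_p - e_p - j ψ_p x)_r / v_r`. `β v = 0` as `h v = v`, `ψ v = 0`. -/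
def WL_stmt : Prop :=
  ∀ (n : ℕ) (H : Subgroup (SLZ n)) (W : Submodule ℤ (Fin n → ℤ)) (v : Fin n → ℤ), v ≠ 0 → v ∈ W →
    (∀ w ∈ W, ¬ Indep v w) → PQ H W → PV H v

/-- WD. `ℤⁿ / W` of rank one. `H'` is the transposed group. Proof. Let `ψ₀ ≠ 0` be an integer row with `ψ₀ W = 0` (it exists: `W` does not span `ℚⁿ` by
`hv`; every integer row which kills `W` is a rational multiple of `ψ₀`, since the rank of `ℤⁿ / W` is one). Claim `PV H' ψ₀`. Let `x, ψ` be integer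
vectors with `ψ ⬝ᵥ ψ₀ = 0`, `ψ ⬝ᵥ x = 0`. Some multiple `N ψ`, `N ≠ 0`, is in `W` (as `ψ₀ ψ = 0` and `W` has finite index in
`ker ψ₀ ∩ ℤⁿ`). `PW` for the vector `N ψ ∈ W` and the row `N x` (or `x`; signs) : `h ∈ H` with `h w = w + j (x w) N ψ` for `w ∈ W`, `h v - v ∈ W`. The rows
`(h - 1 - j N ψ x)` vanish on `W`, so `h = 1 + j N ψ xᵀ + β' ψ₀` (a column `β'` times the row `ψ₀`), and `ψ₀ h = ψ₀`, so `ψ₀ β' = 0`. Transposed: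
`hᵀ = 1 + j N x ψᵀ + ψ₀ β'ᵀ` in `H'`; with `N ≥ 1` this is what `PV` says (`N < 0`: use `- ψ ∈ W`, i.e. replace `N` by `- N`). -/
def WD_stmt : Prop :=
  ∀ (n : ℕ) (H H' : Subgroup (SLZ n)) (W : Submodule ℤ (Fin n → ℤ)) (v₁ : Fin n → ℤ),
    (∀ h, h ∈ H' ↔ h.transpose ∈ H) → (∀ c : ℤ, c ≠ 0 → c • v₁ ∉ W) →
    (∀ v : Fin n → ℤ, ∃ a b : ℤ, a ≠ 0 ∧ a • v + b • v₁ ∈ W) → PW H W →
    ∃ ψ₀ : Fin n → ℤ, ψ₀ ≠ 0 ∧ PV H' ψ₀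

/-- CHI. Functionals. Proof. Linear algebra over `ℚ`: `x₁, x₂` are linearly independent modulo the span of `W` in `ℚⁿ`, so there are rational functionals
which vanish on `W` with these values; clear denominators (`clear_denom` with a common `D`). -/
def CHI_stmt : Prop :=
  ∀ (n : ℕ) (W : Submodule ℤ (Fin n → ℤ)) (x₁ x₂ : Fin n → ℤ),
    (∀ a b : ℤ, a • x₁ + b • x₂ ∈ W → a = 0 ∧ b = 0) →
    ∃ (D : ℤ) (χ₁ χ₂ : Fin n → ℤ), D ≠ 0 ∧ (∀ w ∈ W, χ₁ ⬝ᵥ w = 0) ∧ (∀ w ∈ W, χ₂ ⬝ᵥ w = 0) ∧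
      χ₁ ⬝ᵥ x₁ = D ∧ χ₁ ⬝ᵥ x₂ = 0 ∧ χ₂ ⬝ᵥ x₁ = 0 ∧ χ₂ ⬝ᵥ x₂ = D

/-- T2A. An element `κ ≠ 1` of `H` which is trivial on `W` and on the quotient, the quotient of rank at least `2`. Proof. `X = κ - 1` (integral), `X W = 0`,
`X ℤⁿ ⊆ W`. For integer `x, ψ` with `ψ W = 0`, `ψ x = 0` take `h` from `PQ`. `h⁻¹ u = u - j (ψ u) x + w` with `w ∈ W`, so
`h κ h⁻¹ = 1 + X - j (X x) ψ` and `κ⁻¹ h κ h⁻¹ = 1 - j (X x) ψ = tv (X x) (- j ψ) ∈ H` (`X² = 0`). Call a row `ψ` with `ψ W = 0` bad if `X x = 0` for all `x` with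
`ψ x = 0`. If `ψ, ψ'` are linearly independent and bad then `X = 0` (every `u` has a multiple `a u = x + x'`, `ψ x = 0`, `ψ' x' = 0`), a contradiction. So of `χ₁`,
`χ₂`, `χ₁ + χ₂` (CHI) at least two, `ψ₁` and `ψ₂`, are not bad; they are independent. Take `x_i` with `ψ_i x_i = 0`, `X x_i ≠ 0`,
`z_i = tv (X x_i) (- j_i ψ_i)`. `final_coef` (`e = X x_1`, `φ = - j_1 ψ_1`, `z = z_1`, `g = z_2`): `ψ_1 (z_2 X x_1) = 0` as `X x_1, X x_2 ∈ W`.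
`z_2 ^ k = z_1 ^ m` (`k ≥ 1`): `k j_2 (X x_2) ψ_2 = m j_1 (X x_1) ψ_1`; apply to `u` with `ψ_1 u = 0`, `ψ_2 u ≠ 0`: `X x_2 = 0`. -/
def T2A_stmt : Prop :=
  ∀ (n : ℕ), 3 ≤ n → ∀ H : Subgroup (SLZ n), ZDense H → ∀ W : Submodule ℤ (Fin n → ℤ),
    ∀ x₁ x₂ : Fin n → ℤ, (∀ a b : ℤ, a • x₁ + b • x₂ ∈ W → a = 0 ∧ b = 0) → PQ H W →
    ∀ κ ∈ H, κ ≠ 1 → κ ∈ Uni W → H.FiniteIndex

/-- T2B. `W` and the quotient of rank at least `2`, `H ⊓ Uni W = 1`. Proof. `χ₁, χ₂` from CHI; `ψ = χ₁`, `x = x₂`: `ψ x = 0`. `PQ`: `h₁ ∈ H`, `h₁ w = w` for `w ∈ W`,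
`h₁ u - u - j (ψ u) x₂ ∈ W`. Let `w₀ ∈ W`, `φ` with `φ w₀ = 0`, `h₂ ∈ H` from `PW`. `h₁ h₂ h₁⁻¹ h₂⁻¹ ∈ Uni W` (both are trivial on `W` or on the quotient: on `W` `h₁ = 1`, on the quotient `h₂ = 1`),
so `h₁ h₂ = h₂ h₁`. `Y = h₁ - 1`: `Y w = 0` on `W`, `Y h₂ = Y` (`h₂ u - u ∈ W`), so `h₂ Y = Y`. (a) If `u = Y u' ∈ W` then `u = 0`: otherwise one of `w₁, w₂`, call it `w₀`, is
not a rational multiple of `u`; take `φ` with `φ w₀ = 0`, `φ u ≠ 0`; `h₂ u = u + j' (φ u) w₀ = u` is a contradiction. (b) If `ψ u' = 0` then `Y u' ∈ W`, so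
`Y u' = 0`. So `Y = vecMulVec x' ψ` over `ℚ` (`x' = Y x₁ / D`), `x' ≠ 0` (`Y x₁ - j D x₂ ∈ W` and `x₂ ∉ W`), `ψ x' = 0` (`ψ W = 0`, `ψ x₂ = 0`). `FCQ` with `z = h₁` (`y = x'`, `f = ψ`) and `g = h₂` for
`w₀ = w₁`, `φ` with `φ w₁ = 0`, `φ w₂ ≠ 0`: `h₂ x' = x'` (`h₂ Y = Y`). `h₂ ^ k w₂ = w₂ + k j' (φ w₂) w₁ ≠ w₂` for `k ≥ 1`, `h₁ ^ m w₂ = w₂`. -/
def T2B_stmt : Prop :=
  ∀ (n : ℕ), 3 ≤ n → ∀ H : Subgroup (SLZ n), ZDense H → ∀ W : Submodule ℤ (Fin n → ℤ),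
    ∀ x₁ x₂ : Fin n → ℤ, (∀ a b : ℤ, a • x₁ + b • x₂ ∈ W → a = 0 ∧ b = 0) →
    ∀ w₁ ∈ W, ∀ w₂ ∈ W, Indep w₁ w₂ → PQ H W → PW H W →
    (∀ κ ∈ H, κ ∈ Uni W → κ = 1) → H.FiniteIndex

/-- T. The Levi criterion (assembly). -/
def T_stmt : Prop :=
  ∀ (n : ℕ), 3 ≤ n → ∀ H : Subgroup (SLZ n), ZDense H → ∀ W : Submodule ℤ (Fin n → ℤ), Proper W →
    (∀ x ψ : Fin n → ℤ, ψ ⬝ᵥ x = 0 → tv x ψ ∈ Par W → ∃ j : ℕ, 1 ≤ j ∧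
      (tv x ψ) ^ j ∈ (H ⊓ Par W) ⊔ Uni W) → H.FiniteIndex

end Pool.Agent.LV
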